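import Pool.Agent.helper62.EN.SpecX

set_option autoImplicit false

open scoped MatrixGroups ContDiff Topology UpperHalfPlane ComplexConjugate
open UpperHalfPlane MeasureTheory Filter Set

namespace Pool.Agent.EN

theorem XLF_b (δ p q r t w : ℝ) (hp : |p| ≤ 3 * δ) (hq : |q| ≤ 2) (hr : |r| ≤ 3 * δ) (ht : |t| ≤ 2)
    (hw : |w| < δ) : |p * q + r * t + w| < 14 * δ := by
  have h0 : 0 < δ := lt_of_le_of_lt (abs_nonneg w) hw
  have h1 : |p * q| ≤ 3 * δ * 2 := by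
    rw [abs_mul]
    exact mul_le_mul hp hq (abs_nonneg _) (by positivity)
  have h2 : |r * t| ≤ 3 * δ * 2 := by
    rw [abs_mul]
    exact mul_le_mul hr ht (abs_nonneg _) (by positivity)
  have h3 := abs_add_le (p * q + r * t) w
  have h4 := abs_add_le (p * q) (r * t)
  linarith

/-- the product `a⁻¹ h⁻¹ a h'` is near `1` -/
theorem XLF_near (δ : ℝ) (hδ1 : δ ≤ 1) (h h' : SL(2, ℝ)) (hh : nr δ h) (hh' : nr δ h') :
    nr (14 * δ) ((RS.aM 1)⁻¹ * h⁻¹ * RS.aM 1 * h') := by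
  have s1 : Real.exp (1 / 2) * Real.exp (1 / 2) < 3 := by
    rw [← Real.exp_add]
    have := Real.exp_one_lt_d9
    norm_num at this ⊢
    linarith
  have s2 : Real.exp (-(1 / 2)) * Real.exp (-(1 / 2)) ≤ 1 := by
    rw [← Real.exp_add]
    exact Real.exp_le_one_iff.2 (by norm_num)
  have s3 : Real.exp (-(1 / 2)) * Real.exp (1 / 2) = 1 := by
    rw [← Real.exp_add]
    simp
  have s4 : 0 < Real.exp (1 / 2) * Real.exp (1 / 2) := by positivity
  have s5 : 0 < Real.exp (-(1 / 2)) * Real.exp (-(1 / 2)) := by positivity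
  set s := Real.exp (1 / 2) with hs
  set s' := Real.exp (-(1 / 2)) with hs'
  have e00 : |h.1 0 0 - 1| < δ := by simpa using hh 0 0
  have e01 : |h.1 0 1| < δ := by simpa using hh 0 1
  have e10 : |h.1 1 0| < δ := by simpa using hh 1 0
  have e11 : |h.1 1 1 - 1| < δ := by simpa using hh 1 1
  have f00 : |h'.1 0 0 - 1| < δ := by simpa using hh' 0 0
  have f01 : |h'.1 0 1| < δ := by simpa using hh' 0 1
  have f10 : |h'.1 1 0| < δ := by simpa using hh' 1 0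
  have f11 : |h'.1 1 1 - 1| < δ := by simpa using hh' 1 1
  have hδ : 0 < δ := lt_of_le_of_lt (abs_nonneg _) e00
  have g00 : |h'.1 0 0| ≤ 2 := by
    have := abs_add_le (h'.1 0 0 - 1) 1
    rw [sub_add_cancel, abs_one] at this
    linarith
  have g11 : |h'.1 1 1| ≤ 2 := by
    have := abs_add_le (h'.1 1 1 - 1) 1
    rw [sub_add_cancel, abs_one] at this
    linarith
  have k01 : |-(s' * s') * h.1 0 1| ≤ 3 * δ := by
    rw [abs_mul, abs_neg, abs_of_pos s5]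
    nlinarith [abs_nonneg (h.1 0 1)]
  have k10 : |-(s * s) * h.1 1 0| ≤ 3 * δ := by
    rw [abs_mul, abs_neg, abs_of_pos s4]
    nlinarith [abs_nonneg (h.1 1 0)]
  have ha : (RS.aM 1).1 = !![s, 0; 0, s'] := rfl
  have hai : ((RS.aM 1)⁻¹).1 = !![s', 0; 0, s] := by
    rw [Matrix.SpecialLinearGroup.SL2_inv_expl]
    simp [ha]
    rfl
  have hhi : (h⁻¹).1 = !![h.1 1 1, -h.1 0 1; -h.1 1 0, h.1 0 0] := by
    rw [Matrix.SpecialLinearGroup.SL2_inv_expl]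
    rfl
  have hP : ((RS.aM 1)⁻¹ * h⁻¹ * RS.aM 1 * h').1 =
      !![h.1 1 1 * h'.1 0 0 + -(s' * s') * h.1 0 1 * h'.1 1 0, h.1 1 1 * h'.1 0 1 + -(s' * s') * h.1 0 1 * h'.1 1 1;
        -(s * s) * h.1 1 0 * h'.1 0 0 + h.1 0 0 * h'.1 1 0, -(s * s) * h.1 1 0 * h'.1 0 1 + h.1 0 0 * h'.1 1 1] := by
    change ((RS.aM 1)⁻¹).1 * (h⁻¹).1 * (RS.aM 1).1 * h'.1 = _
    rw [ha, hai, hhi]
    ext i j
    fin_cases i <;> fin_cases j <;>
      simp [Matrix.mul_apply, Fin.sum_univ_two]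
    · linear_combination (h.1 1 1 * h'.1 0 0) * s3
    · linear_combination (h.1 1 1 * h'.1 0 1) * s3
    · linear_combination (h.1 0 0 * h'.1 1 0) * s3
    · linear_combination (h.1 0 0 * h'.1 1 1) * s3
  intro i j
  rw [hP]
  fin_cases i <;> fin_cases j
  · have := XLF_b δ (h.1 1 1 - 1) (h'.1 0 0) (-(s' * s') * h.1 0 1) (h'.1 1 0) (h'.1 0 0 - 1) (by linarith) g00 k01
      (by linarith) f00
    have e : h.1 1 1 * h'.1 0 0 + -(s' * s') * h.1 0 1 * h'.1 1 0 - 1 =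
        (h.1 1 1 - 1) * h'.1 0 0 + -(s' * s') * h.1 0 1 * h'.1 1 0 + (h'.1 0 0 - 1) := by ring
    rw [← e] at this
    simpa using this
  · have := XLF_b δ (h.1 1 1 - 1) (h'.1 0 1) (-(s' * s') * h.1 0 1) (h'.1 1 1) (h'.1 0 1) (by linarith) (by linarith) k01
      g11 f01
    have e : h.1 1 1 * h'.1 0 1 + -(s' * s') * h.1 0 1 * h'.1 1 1 =
        (h.1 1 1 - 1) * h'.1 0 1 + -(s' * s') * h.1 0 1 * h'.1 1 1 + h'.1 0 1 := by ring
    rw [← e] at this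
    simpa using this
  · have := XLF_b δ (-(s * s) * h.1 1 0) (h'.1 0 0) (h.1 0 0 - 1) (h'.1 1 0) (h'.1 1 0) k10 g00 (by linarith)
      (by linarith) f10
    have e : -(s * s) * h.1 1 0 * h'.1 0 0 + h.1 0 0 * h'.1 1 0 =
        -(s * s) * h.1 1 0 * h'.1 0 0 + (h.1 0 0 - 1) * h'.1 1 0 + h'.1 1 0 := by ring
    rw [← e] at this
    simpa using this
  · have := XLF_b δ (-(s * s) * h.1 1 0) (h'.1 0 1) (h.1 0 0 - 1) (h'.1 1 1) (h'.1 1 1 - 1) k10 (by linarith) (by linarith)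
      g11 f11
    have e : -(s * s) * h.1 1 0 * h'.1 0 1 + h.1 0 0 * h'.1 1 1 - 1 =
        -(s * s) * h.1 1 0 * h'.1 0 1 + (h.1 0 0 - 1) * h'.1 1 1 + (h'.1 1 1 - 1) := by ring
    rw [← e] at this
    simpa using this

theorem XLF_add (i : ℕ) : RS.aM ((i + 1 : ℕ) : ℝ) = RS.aM i * RS.aM 1 := by
  apply Subtype.ext
  change (RS.aM ((i + 1 : ℕ) : ℝ)).1 = (RS.aM i).1 * (RS.aM 1).1
  unfold RS.aM
  ext a b
  fin_cases a <;> fin_cases b <;> simp [Matrix.mul_apply, Fin.sum_univ_two, ← Real.exp_add] <;> ring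

theorem XLF_proof (h1 : XDS_stmt) : XLF_stmt := by
  intro Γ hΓ
  obtain ⟨ε, hε, hds⟩ := h1 Γ hΓ
  refine ⟨min 1 (ε / 14), by positivity, min_le_left _ _, ?_⟩
  intro g₀ g n γ hγ
  have hstep : ∀ i, i + 1 < n → γ (i + 1) = γ i := by
    intro i hi
    have a1 := hγ i (by omega)
    have a2 := hγ (i + 1) hi
    have a3 := XLF_near _ (min_le_left _ _) _ _ a1 a2
    have a4 : (RS.aM 1)⁻¹ * ((g₀ * RS.aM i)⁻¹ * (γ i : SL(2, ℝ)) * (g * RS.aM i))⁻¹ * RS.aM 1 *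
        ((g₀ * RS.aM ((i + 1 : ℕ) : ℝ))⁻¹ * (γ (i + 1) : SL(2, ℝ)) * (g * RS.aM ((i + 1 : ℕ) : ℝ))) =
        (g * RS.aM ((i + 1 : ℕ) : ℝ))⁻¹ * (((γ i)⁻¹ * γ (i + 1) : Γ) : SL(2, ℝ)) * (g * RS.aM ((i + 1 : ℕ) : ℝ)) := by
      rw [XLF_add]
      simp only [Subgroup.coe_mul, Subgroup.coe_inv]
      group
    rw [a4] at a3
    have a5 : (γ i)⁻¹ * γ (i + 1) = 1 := by
      refine hds _ _ fun a b => lt_of_lt_of_le (a3 a b) ?_
      have := min_le_right (1 : ℝ) (ε / 14)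
      linarith
    exact (inv_mul_eq_one.1 a5).symm
  intro i hi
  induction i with
  | zero => rfl
  | succ i ih => rw [hstep i hi, ih (by omega)]

end Pool.Agent.EN
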