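import Pool.Agent.helper80.EN.Spec4

/-! Row eb:BDS (MP_202db4_al). -/

set_option autoImplicit false

namespace Pool.Agent.helper80.EN

open Subgroup

universe u

theorem BDS (h1 : BLI_stmt.{u}) (h2 : BDC_stmt.{u}) (h3 : BDT_stmt.{u}) : BDS_stmt.{u} := by
  intro G _ h
  obtain ⟨hmono, hinj, hext⟩ := h2
  induction h with
  | @linear G _ F _ n f hf =>
    obtain ⟨d, hd⟩ := h1 n
    exact ⟨d, hd F G f hf⟩
  | @sub G H _ _ f hf _ ih =>
    obtain ⟨d, hd⟩ := ih
    exact ⟨d, hinj G H f hf d hd⟩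
  | @ext G _ N _ _ _ _ ih1 ih2 =>
    obtain ⟨d, hd⟩ := ih1
    obtain ⟨e, he⟩ := ih2
    exact ⟨d + e, hext G N d e hd he⟩
  | @tree G _ V _ Γ hΓ hfin _ _ ih =>
    have : Finite (MulAction.orbitRel.Quotient G V) := hfin
    choose D hD using ih
    obtain ⟨M, hM⟩ := Finite.exists_le
      (fun q : MulAction.orbitRel.Quotient G V => D (Quotient.out q))
    refine ⟨M + 2, h3 G V Γ M hΓ fun v => ?_⟩
    have hrel : MulAction.orbitRel G V v
        (Quotient.out (Quotient.mk (MulAction.orbitRel G V) v)) :=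
      (MulAction.orbitRel G V).symm (@Quotient.mk_out V (MulAction.orbitRel G V) v)
    have hd := hD (Quotient.out (Quotient.mk (MulAction.orbitRel G V) v))
    have hle := hM (Quotient.mk (MulAction.orbitRel G V) v)
    refine hmono _ _ _ hle ?_
    exact hinj _ _ (MulAction.stabilizerEquivStabilizerOfOrbitRel hrel).toMonoidHom
      (MulAction.stabilizerEquivStabilizerOfOrbitRel hrel).injective _ hd

end Pool.Agent.helper80.EN
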