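import Mathlib
import Pool.Agent.helper80.EN.Spec

set_option autoImplicit false

namespace Pool.Agent.helper80.EN

open Subgroup

universe u

/-- restriction of an automorphism to an invariant subgroup -/
def PEX_res {B : Type u} [Group B] (M : Subgroup B) (α : MulAut B) (h1 : ∀ m ∈ M, α m ∈ M)
    (h2 : ∀ m ∈ M, α⁻¹ m ∈ M) : MulAut M where
  toFun m := ⟨α m, h1 m m.2⟩
  invFun m := ⟨α⁻¹ m, h2 m m.2⟩
  left_inv m := by
    apply Subtype.ext
    exact MulAut.inv_apply_self B α (m : B)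
  right_inv m := by
    apply Subtype.ext
    exact MulAut.apply_inv_self B α (m : B)
  map_mul' x y := by
    apply Subtype.ext
    exact map_mul α (x : B) (y : B)

theorem PEX_res_coe {B : Type u} [Group B] (M : Subgroup B) (α : MulAut B)
    (h1 : ∀ m ∈ M, α m ∈ M) (h2 : ∀ m ∈ M, α⁻¹ m ∈ M) (m : M) :
    ((PEX_res M α h1 h2 m : M) : B) = α (m : B) := rfl

theorem PEX_del_coe {B : Type u} [Group B] (M : Subgroup B) (α : MulAut B)
    (h1 : ∀ m ∈ M, α m ∈ M) (h2 : ∀ m ∈ M, α⁻¹ m ∈ M) (m : M) :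
    ((del (PEX_res M α h1 h2) m : M) : B) = del α (m : B) := rfl

theorem PEX_iter_coe {B : Type u} [Group B] (M : Subgroup B) (α : MulAut B)
    (h1 : ∀ m ∈ M, α m ∈ M) (h2 : ∀ m ∈ M, α⁻¹ m ∈ M) (n : ℕ) (m : M) :
    (((del (PEX_res M α h1 h2))^[n] m : M) : B) = (del α)^[n] (m : B) := by
  induction n generalizing m with
  | zero => rfl
  | succ n ih =>
    rw [Function.iterate_succ_apply, Function.iterate_succ_apply, ih, PEX_del_coe]

theorem PEX_iter_mk {B : Type u} [Group B] (M : Subgroup B) [M.Normal] (α : MulAut B)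
    (β : MulAut (B ⧸ M)) (hβ : ∀ b : B, β (QuotientGroup.mk' M b) = QuotientGroup.mk' M (α b))
    (n : ℕ) (b : B) :
    (del β)^[n] (QuotientGroup.mk' M b) = QuotientGroup.mk' M ((del α)^[n] b) := by
  induction n generalizing b with
  | zero => rfl
  | succ n ih =>
    have h : del β (QuotientGroup.mk' M b) = QuotientGroup.mk' M (del α b) := by
      unfold del
      rw [hβ, map_mul, map_inv]
    rw [Function.iterate_succ_apply, Function.iterate_succ_apply, h, ih]

theorem PEX (hEXB : EXB_stmt.{u}) (hTRF : TRF_stmt.{u}) : PEX_stmt.{u} := by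
  intro B _ M hM hPM hPQ α hα
  have h1 : ∀ m ∈ M, α m ∈ M := by
    intro m hm
    have h := (Subgroup.characteristic_iff_comap_le.mp hM) α⁻¹
    have h' : (α m) ∈ M.comap (α⁻¹ : MulAut B).toMonoidHom := by
      rw [Subgroup.mem_comap]
      have e : (α⁻¹ : MulAut B).toMonoidHom (α m) = m := MulAut.inv_apply_self B α m
      rw [e]; exact hm
    exact h h'
  have h2 : ∀ m ∈ M, α⁻¹ m ∈ M := by
    intro m hm
    have h := (Subgroup.characteristic_iff_comap_le.mp hM) α
    have h' : (α⁻¹ m) ∈ M.comap (α : MulAut B).toMonoidHom := by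
      rw [Subgroup.mem_comap]
      have e : (α : MulAut B).toMonoidHom (α⁻¹ m) = m := MulAut.apply_inv_self B α m
      rw [e]; exact hm
    exact h h'
  -- the restriction to `M`
  have hEM : EngelAut (PEX_res M α h1 h2) := by
    intro m
    obtain ⟨n, hn⟩ := hα (m : B)
    refine ⟨n, ?_⟩
    apply Subtype.ext
    rw [PEX_iter_coe, hn]
    rfl
  have hLM := hPM _ hEM
  have hmapM : (Bra (PEX_res M α h1 h2)).map M.subtype
      = closure {x : B | ∃ m ∈ M, x = del α m} := by
    unfold Bra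
    rw [MonoidHom.map_closure]
    congr 1
    ext x
    constructor
    · rintro ⟨_, ⟨m, rfl⟩, rfl⟩
      exact ⟨m, m.2, rfl⟩
    · rintro ⟨m, hm, rfl⟩
      exact ⟨del (PEX_res M α h1 h2) ⟨m, hm⟩, ⟨⟨m, hm⟩, rfl⟩, rfl⟩
  have hL1 : LocNilp (closure {x : B | ∃ m ∈ M, x = del α m}) := by
    rw [← hmapM]
    exact (hTRF M).2.1 B M.subtype _ hLM
  -- the quotient
  have hmap : M.map (α : B ≃* B).toMonoidHom = M := by
    apply le_antisymm
    · rintro _ ⟨m, hm, rfl⟩
      exact h1 m hm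
    · intro m hm
      exact ⟨α⁻¹ m, h2 m hm, MulAut.apply_inv_self B α m⟩
  let β : MulAut (B ⧸ M) := QuotientGroup.congr M M α hmap
  have hβ : ∀ b : B, β (QuotientGroup.mk' M b) = QuotientGroup.mk' M (α b) := fun b => rfl
  have hEQ : EngelAut β := by
    intro q
    obtain ⟨b, rfl⟩ := QuotientGroup.mk'_surjective M q
    obtain ⟨n, hn⟩ := hα b
    refine ⟨n, ?_⟩
    rw [PEX_iter_mk M α β hβ, hn, map_one]
  have hLQ := hPQ β hEQ
  have hmapQ : (Bra α).map (QuotientGroup.mk' M) = Bra β := by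
    unfold Bra
    rw [MonoidHom.map_closure]
    congr 1
    ext x
    constructor
    · rintro ⟨_, ⟨b, rfl⟩, rfl⟩
      refine ⟨QuotientGroup.mk' M b, ?_⟩
      unfold del
      rw [hβ, map_mul, map_inv]
    · rintro ⟨q, rfl⟩
      obtain ⟨b, rfl⟩ := QuotientGroup.mk'_surjective M q
      refine ⟨del α b, ⟨b, rfl⟩, ?_⟩
      unfold del
      rw [hβ, map_mul, map_inv]
  have hL2 : LocNilp ((Bra α).map (QuotientGroup.mk' M)) := by
    rw [hmapQ]; exact hLQ
  exact hEXB B α M h1 h2 hα hL1 hL2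

end Pool.Agent.helper80.EN
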